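import Pool.Agent.Helper54.Q.Ar
import Pool.Agent.Helper56.Q3.Stm4

/-!
# The real inequality with the singles, general parameters
-/

set_option autoImplicit false
set_option maxHeartbeats 4000000

namespace Pool.Agent.Helper56.Q3.AR4

open Finset Pool.Agent.Helper54.Q Pool.Agent.Helper54.Q.AR

theorem main : S_AR3C 32 := by
  intro η κ h₀ hη hκ hh hz
  intro E m s σ t ρ hE h0 hs hs0 hsσ ht0 ht hρ hρeq hsum N1 N2 N3 N4 N5 N6
  have c10 : U E m 1 0 = U E m 0 1 := U_symm hs 1 0
  have c20 : U E m 2 0 = U E m 0 2 := U_symm hs 2 0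
  have c30 : U E m 3 0 = U E m 0 3 := U_symm hs 3 0
  have c21 : U E m 2 1 = U E m 1 2 := U_symm hs 2 1
  have c31 : U E m 3 1 = U E m 1 3 := U_symm hs 3 1
  have c32 : U E m 3 2 = U E m 2 3 := U_symm hs 3 2
  have hss : ∑ i, s i = s 0 + s 1 + s 2 + s 3 := Fin.sum_univ_four s
  have hup : ∀ k l : Fin 4, k ≠ l → U E m k l < 1 / 6 + (η + κ) := by
    intro k l hkl
    have h1 := N1 k l hkl
    have h2 := hs0 l
    linarith
  have n01 := N1 0 1 (by decide)
  have n02 := N1 0 2 (by decide)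
  have n03 := N1 0 3 (by decide)
  have n10 := N1 1 0 (by decide)
  have n12 := N1 1 2 (by decide)
  have n13 := N1 1 3 (by decide)
  have n20 := N1 2 0 (by decide)
  have n21 := N1 2 1 (by decide)
  have n23 := N1 2 3 (by decide)
  have n30 := N1 3 0 (by decide)
  have n31 := N1 3 1 (by decide)
  have n32 := N1 3 2 (by decide)
  have hP : 1 - 12 * (η + κ) <
      U E m 0 1 + U E m 0 2 + U E m 0 3 + U E m 1 2 + U E m 1 3 + U E m 2 3 := by
    linarith
  have hlow : ∀ k l : Fin 4, k ≠ l → 1 / 6 - 5 * (η + κ) < U E m k l := by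
    have a01 := hup 0 1 (by decide)
    have a02 := hup 0 2 (by decide)
    have a03 := hup 0 3 (by decide)
    have a12 := hup 1 2 (by decide)
    have a13 := hup 1 3 (by decide)
    have a23 := hup 2 3 (by decide)
    intro k l hkl
    rcases fin4 k with rfl | rfl | rfl | rfl <;> rcases fin4 l with rfl | rfl | rfl | rfl <;>
      first | exact absurd rfl hkl | linarith
  have hdiag : ∀ i j : Fin 4, i ≠ j → ∑ p ∈ Icc 1 E, m i j p p < 6 * (η + κ) := by
    intro i j hij
    obtain ⟨k, l, h⟩ := ex_kl i j hij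
    have h1 := N2 i j k l h
    have h2 := hlow k l h.2.2.2.2.2
    linarith
  have er0 : (univ.erase (0 : Fin 4)) = {1, 2, 3} := by decide
  have er1 : (univ.erase (1 : Fin 4)) = {0, 2, 3} := by decide
  have er2 : (univ.erase (2 : Fin 4)) = {0, 1, 3} := by decide
  have er3 : (univ.erase (3 : Fin 4)) = {0, 1, 2} := by decide
  have sum3 : ∀ (f : Fin 4 → ℝ) (a b c : Fin 4), a ≠ b → a ≠ c → b ≠ c →
      ∑ i ∈ ({a, b, c} : Finset (Fin 4)), f i = f a + f b + f c := by
    intro f a b c h1 h2 h3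
    rw [Finset.sum_insert (by simp [h1, h2]), Finset.sum_insert (by simp [h3]),
      Finset.sum_singleton]
    ring
  have hUl' : ∀ l : Fin 4, 1 / 2 - 6 * (η + κ) ≤ ∑ i ∈ univ.erase l, U E m i l := by
    intro l
    have a0 := hs0 0
    have a1 := hs0 1
    have a2 := hs0 2
    have a3 := hs0 3
    rcases fin4 l with rfl | rfl | rfl | rfl
    · rw [er0, sum3 _ 1 2 3 (by decide) (by decide) (by decide)]
      linarith
    · rw [er1, sum3 _ 0 2 3 (by decide) (by decide) (by decide)]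
      linarith
    · rw [er2, sum3 _ 0 1 3 (by decide) (by decide) (by decide)]
      linarith
    · rw [er3, sum3 _ 0 1 2 (by decide) (by decide) (by decide)]
      linarith
  have htau : ∀ l : Fin 4, ∀ e ∈ Icc 1 E,
      ∑ i ∈ univ.erase l, V E m i l e < 1 / 6 + (η + κ) := by
    intro l e he
    have hUl : 1 / 2 - 6 * (η + κ) ≤ ∑ i ∈ univ.erase l, U E m i l := hUl' l
    have hI : ∑ y ∈ (univ.erase l) ×ˢ (Icc 1 E), m y.1 l e y.2 =
        ∑ i ∈ univ.erase l, V E m i l e := by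
      rw [Finset.sum_product]
      rfl
    rw [← hI]
    refine greedy _ (fun y : Fin 4 × ℕ => m y.1 l e y.2) (1 / 6 - 8 * (η + κ)) _
      (by linarith) ?_ ?_ ?_
    · intro S hS
      have h1 := N4 l e he S (by
        intro y hy
        have h2 := mem_product.1 (hS hy)
        exact ⟨(mem_erase.1 h2.1).1, h2.2⟩)
      rcases min_cases (∑ y ∈ S, m y.1 l e y.2)
        ((∑ i ∈ univ.erase l, U E m i l) - ∑ y ∈ S, m y.1 l e y.2) with h | h
      · left
        rw [h.1] at h1
        linarith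
      · right
        rw [h.1] at h1
        linarith
    · intro y hy
      have h2 := mem_product.1 hy
      exact lt_of_le_of_lt (m_le_U h0 y.1 l he h2.2) (hup y.1 l (mem_erase.1 h2.1).1)
    · intro y hy y' hy' hne
      have h2 := mem_product.1 hy
      have h2' := mem_product.1 hy'
      have hyl : y.1 ≠ l := (mem_erase.1 h2.1).1
      have hyl' : y'.1 ≠ l := (mem_erase.1 h2'.1).1
      by_contra hcon
      rw [not_or, not_lt, not_lt] at hcon
      obtain ⟨ha, ha'⟩ := hcon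
      have hb := lt_of_le_of_lt (m_le_U h0 y.1 l he h2.2) (hup y.1 l hyl)
      have hb' := lt_of_le_of_lt (m_le_U h0 y'.1 l he h2'.2) (hup y'.1 l hyl')
      by_cases h1 : y.1 = y'.1
      · have h3 : y.2 ≠ y'.2 := fun h3 => hne (Prod.ext h1 h3)
        have h4 := m2_le_U h0 y.1 l he h2.2 h2'.2 h3
        have h5 := hup y.1 l hyl
        rw [← h1] at ha'
        linarith
      · obtain ⟨k, hk⟩ := ex_k y.1 y'.1 l h1 hyl hyl'
        have hd : ∀ i : Fin 4, i ≠ l → m i l e e < 6 * (η + κ) := by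
          intro i hi
          refine lt_of_le_of_lt ?_ (hdiag i l hi)
          exact Finset.single_le_sum (f := fun p => m i l p p) (fun p _ => h0 _ _ _ _) he
        have he1 : e ≠ y.2 := by
          intro h
          have := hd y.1 hyl
          rw [← h] at ha
          linarith
        have he2 : e ≠ y'.2 := by
          intro h
          have := hd y'.1 hyl'
          rw [← h] at ha'
          linarith
        have h6 := N5 y.1 y'.1 k l hk e he y.2 h2.2 y'.2 h2'.2 he1 he2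
        have h7 := hlow k l hk.2.2.2.2.2
        have h8 : max 0 (max (m y.1 l e y.2) (m y'.1 l e y'.2) - U E m k l / 2) ≤
            m y.1 l e y.2 + m y'.1 l e y'.2 - 1 / 4 + 21 / 2 * (η + κ) := by
          refine max_le (by linarith) ?_
          have h9 : max (m y.1 l e y.2) (m y'.1 l e y'.2) ≤
              m y.1 l e y.2 + m y'.1 l e y'.2 - (1 / 6 - 8 * (η + κ)) := by
            refine max_le ?_ ?_
            · linarith
            · linarith
          linarith
        linarith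
  obtain ⟨X, hX⟩ : ∃ X : Fin 4 → Fin 4 → ℝ, X = fun i l => ∑ e ∈ Icc 4 E, V E m i l e := ⟨_, rfl⟩
  have hXn : ∀ i l, 0 ≤ X i l := by
    intro i l
    rw [hX]
    exact Finset.sum_nonneg fun e _ => V_nonneg h0 _ _ _
  have eU : ∀ i l, U E m i l = V E m i l 1 + V E m i l 2 + V E m i l 3 + X i l := by
    intro i l
    rw [hX]
    exact U_eq hE i l
  have hZX : ∀ i l, V E m i l 1 + 2 * V E m i l 2 + 3 * V E m i l 3 + 4 * X i l ≤ Z E m i l := by
    intro i l
    rw [hX]
    exact Z_ge hE h0 i l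
  have hσs : ∑ i, σ i = σ 0 + σ 1 + σ 2 + σ 3 := Fin.sum_univ_four σ
  have hZ : Z E m 0 1 + Z E m 0 2 + Z E m 0 3 + Z E m 1 0 + Z E m 1 2 + Z E m 1 3 + Z E m 2 0 +
      Z E m 2 1 + Z E m 2 3 + Z E m 3 0 + Z E m 3 1 + Z E m 3 2 + (σ 0 + σ 1 + σ 2 + σ 3) ≤
      4 + h₀ := by
    have e1 : ∀ F : Fin 4 → Fin 4 → ℝ, (∑ i : Fin 4, ∑ j : Fin 4, (if i = j then 0 else F i j)) =
        F 0 1 + F 0 2 + F 0 3 + F 1 0 + F 1 2 + F 1 3 + F 2 0 + F 2 1 + F 2 3 + F 3 0 + F 3 1 +
          F 3 2 := by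
      intro F
      simp [Fin.sum_univ_four]
      ring
    rw [e1 (fun i j => ∑ p ∈ Icc 1 E, ∑ q ∈ Icc 1 E, ((p : ℝ) + q) * m i j p q)] at hsum
    simp only [F_eq hs] at hsum
    linarith
  have ht0' : ∀ e ∈ Icc 1 E, V E m 1 0 e + V E m 2 0 e + V E m 3 0 e < 1 / 6 + (η + κ) := by
    intro e he
    have h1 := htau 0 e he
    rwa [er0, sum3 _ 1 2 3 (by decide) (by decide) (by decide)] at h1
  have ht1' : ∀ e ∈ Icc 1 E, V E m 0 1 e + V E m 2 1 e + V E m 3 1 e < 1 / 6 + (η + κ) := by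
    intro e he
    have h1 := htau 1 e he
    rwa [er1, sum3 _ 0 2 3 (by decide) (by decide) (by decide)] at h1
  have ht2' : ∀ e ∈ Icc 1 E, V E m 0 2 e + V E m 1 2 e + V E m 3 2 e < 1 / 6 + (η + κ) := by
    intro e he
    have h1 := htau 2 e he
    rwa [er2, sum3 _ 0 1 3 (by decide) (by decide) (by decide)] at h1
  have ht3' : ∀ e ∈ Icc 1 E, V E m 0 3 e + V E m 1 3 e + V E m 2 3 e < 1 / 6 + (η + κ) := by
    intro e he
    have h1 := htau 3 e he
    rwa [er3, sum3 _ 0 1 2 (by decide) (by decide) (by decide)] at h1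
  have m1 : 1 ∈ Icc 1 E := mem_Icc.2 ⟨le_rfl, by omega⟩
  have m2 : 2 ∈ Icc 1 E := mem_Icc.2 ⟨by omega, by omega⟩
  have m3 : 3 ∈ Icc 1 E := mem_Icc.2 ⟨by omega, by omega⟩
  have hT1 : V E m 0 1 1 + V E m 0 2 1 + V E m 0 3 1 + V E m 1 0 1 + V E m 1 2 1 + V E m 1 3 1 +
      V E m 2 0 1 + V E m 2 1 1 + V E m 2 3 1 + V E m 3 0 1 + V E m 3 1 1 + V E m 3 2 1 <
      2 / 3 + 4 * ((η + κ)) := by
    linarith [ht0' 1 m1, ht1' 1 m1, ht2' 1 m1, ht3' 1 m1]
  have hT2 : V E m 0 1 2 + V E m 0 2 2 + V E m 0 3 2 + V E m 1 0 2 + V E m 1 2 2 + V E m 1 3 2 +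
      V E m 2 0 2 + V E m 2 1 2 + V E m 2 3 2 + V E m 3 0 2 + V E m 3 1 2 + V E m 3 2 2 <
      2 / 3 + 4 * ((η + κ)) := by
    linarith [ht0' 2 m2, ht1' 2 m2, ht2' 2 m2, ht3' 2 m2]
  have z01 := hZX 0 1
  have z02 := hZX 0 2
  have z03 := hZX 0 3
  have z10 := hZX 1 0
  have z12 := hZX 1 2
  have z13 := hZX 1 3
  have z20 := hZX 2 0
  have z21 := hZX 2 1
  have z23 := hZX 2 3
  have z30 := hZX 3 0
  have z31 := hZX 3 1
  have z32 := hZX 3 2
  have e01 := eU 0 1
  have e02 := eU 0 2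
  have e03 := eU 0 3
  have e10 := eU 1 0
  have e12 := eU 1 2
  have e13 := eU 1 3
  have e20 := eU 2 0
  have e21 := eU 2 1
  have e23 := eU 2 3
  have e30 := eU 3 0
  have e31 := eU 3 1
  have e32 := eU 3 2
  have g0 := hs0 0
  have g1' := hs0 1
  have g2' := hs0 2
  have g3' := hs0 3
  have f0 := hsσ 0
  have f1 := hsσ 1
  have f2 := hsσ 2
  have f3 := hsσ 3
  have x01 := hXn 0 1
  have x02 := hXn 0 2
  have x03 := hXn 0 3
  have x10 := hXn 1 0
  have x12 := hXn 1 2
  have x13 := hXn 1 3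
  have x20 := hXn 2 0
  have x21 := hXn 2 1
  have x23 := hXn 2 3
  have x30 := hXn 3 0
  have x31 := hXn 3 1
  have x32 := hXn 3 2
  have hσ : σ 0 + σ 1 + σ 2 + σ 3 ≤ (84 * (η + κ) + h₀) := by
    linarith
  have hN6 : ∀ i j k l : Fin 4, Dist4 i j k l → σ k + σ l ≤ (84 * (η + κ) + h₀) →
      U E m k l + s k + s l < ρ - 5 / 6 + η := by
    intro i j k l h hkl
    obtain ⟨hij, hik, hil, hjk, hjl, hkl'⟩ := h
    have l1 := hlow i k hik
    have l2 := hlow i l hil
    have l3 := hlow j k hjk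
    have l4 := hlow j l hjl
    rcases le_total (σ k) (σ l) with hle | hle
    · have h1 := N6 i j k l ⟨hij, hik, hil, hjk, hjl, hkl'⟩
      rw [max_eq_left (by linarith)] at h1
      linarith
    · have h1 := N6 i j l k ⟨hij, hil, hik, hjl, hjk, hkl'.symm⟩
      rw [max_eq_left (by linarith)] at h1
      have h2 : U E m l k = U E m k l := U_symm hs l k
      rw [h2] at h1
      linarith
  have w01 := hN6 2 3 0 1 (by unfold Dist4; decide) (by linarith)
  have w02 := hN6 1 3 0 2 (by unfold Dist4; decide) (by linarith)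
  have w03 := hN6 1 2 0 3 (by unfold Dist4; decide) (by linarith)
  have w12 := hN6 0 3 1 2 (by unfold Dist4; decide) (by linarith)
  have w13 := hN6 0 2 1 3 (by unfold Dist4; decide) (by linarith)
  have w23 := hN6 0 1 2 3 (by unfold Dist4; decide) (by linarith)
  have hTX : X 0 1 + X 0 2 + X 0 3 + X 1 0 + X 1 2 + X 1 3 + X 2 0 + X 2 1 + X 2 3 + X 3 0 +
      X 3 1 + X 3 2 < (27 * (η + κ) + h₀) := by
    linarith
  have hW : ∀ i j k l : Fin 4, Dist4 i j k l → X i k + X i l + X j k + X j l ≤ (27 * (η + κ) + h₀) →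
      2 / 3 - 2 * (η + κ) ≤ U E m i k + U E m i l + U E m j k + U E m j l → DD E m k l < 6 * (η + κ) := by
    intro i j k l h hXs hcyc
    obtain ⟨hij, hik, hil, hjk, hjl, hkl⟩ := h
    by_contra hcon
    have hcon' := not_lt.1 hcon
    have hWg := W_ge hE h0 k l
    have hlk := hlow k l hkl
    have hG : ∀ e ∈ Icc 1 E, V E m i k e + V E m i l e + V E m j k e + V E m j l e <
        1 / 6 + (η + κ) := by
      intro e he
      have h1 := N3 i j k l ⟨hij, hik, hil, hjk, hjl, hkl⟩ e he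
      have h2 : ∑ q ∈ Icc 1 E, (m i k e q + m i l e q + m j k e q + m j l e q) =
          V E m i k e + V E m i l e + V E m j k e + V E m j l e := by
        unfold V
        simp only [Finset.sum_add_distrib]
      rw [h2] at h1
      rcases min_cases (V E m i k e + V E m i l e + V E m j k e + V E m j l e)
        (∑ p ∈ Icc 1 E, ∑ q ∈ Icc 1 E, ((min p q : ℕ) : ℝ) * m k l p q) with h | h
      · rw [h.1] at h1
        linarith
      · rw [h.1] at h1
        linarith
    have g1 := hG 1 m1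
    have g2 := hG 2 m2
    have g3 := hG 3 m3
    have u1 := eU i k
    have u2 := eU i l
    have u3 := eU j k
    have u4 := eU j l
    linarith
  have d01 : DD E m 0 1 < 6 * (η + κ) := hW 2 3 0 1 (by unfold Dist4; decide)
    (by linarith) (by linarith)
  have d02 : DD E m 0 2 < 6 * (η + κ) := hW 1 3 0 2 (by unfold Dist4; decide)
    (by linarith) (by linarith)
  have d03 : DD E m 0 3 < 6 * (η + κ) := hW 1 2 0 3 (by unfold Dist4; decide)
    (by linarith) (by linarith)
  have d12 : DD E m 1 2 < 6 * (η + κ) := hW 0 3 1 2 (by unfold Dist4; decide)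
    (by linarith) (by linarith)
  have d13 : DD E m 1 3 < 6 * (η + κ) := hW 0 2 1 3 (by unfold Dist4; decide)
    (by linarith) (by linarith)
  have d23 : DD E m 2 3 < 6 * (η + κ) := hW 0 1 2 3 (by unfold Dist4; decide)
    (by linarith) (by linarith)
  have b01 := U_le hE h0 hs 0 1
  have b02 := U_le hE h0 hs 0 2
  have b03 := U_le hE h0 hs 0 3
  have b12 := U_le hE h0 hs 1 2
  have b13 := U_le hE h0 hs 1 3
  have b23 := U_le hE h0 hs 2 3
  linarith

end Pool.Agent.Helper56.Q3.AR4
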