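import Pool.Agent.Helper56.Q3.Stm
import Pool.Agent.Helper54.Q.Chn

/-!
# CH2: two free types of single primes (helper95; extends `Pool.Agent.Helper54.Q.CHN` of helper14)
-/

set_option autoImplicit false

namespace Pool.Agent.Helper56.Q3.CH2

open Finset Pool.Agent.Helper54.Q Pool.Agent.Helper54.Q.CHN

open Classical in
/-- the part of `x m` composed of the primes dividing `x m` only -/
noncomputable def up (m : Fin 4) (x : Fin 4 → ℤ) : ℕ :=
  ∏ p ∈ (PP x).filter (fun p => Sg m (vl x p)), p ^ (vl x p m)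

theorem up_ne (m : Fin 4) (x : Fin 4 → ℤ) : up m x ≠ 0 := by
  classical
  unfold up
  rw [prod_ne_zero_iff]
  intro p hp
  exact pow_ne_zero _ (prime_of_PP (mem_filter.1 hp).1).ne_zero

theorem log_up (m : Fin 4) (x : Fin 4 → ℤ) : Real.log (up m x) = W (Sg m) (fun v => v m) x := by
  classical
  unfold up W
  push_cast
  rw [Real.log_prod]
  · refine sum_congr rfl fun p _ => ?_
    rw [Real.log_pow]
  · intro p hp
    exact pow_ne_zero _ (by exact_mod_cast (prime_of_PP (mem_filter.1 hp).1).ne_zero)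

theorem log_eq {n : ℕ} (hn : n ≠ 0) :
    Real.log n = ∑ p ∈ n.primeFactors, (n.factorization p : ℝ) * Real.log p := by
  conv_lhs => rw [← Nat.prod_factorization_pow_eq_self hn]
  rw [Finsupp.prod, Nat.support_factorization]
  push_cast
  rw [Real.log_prod]
  · refine sum_congr rfl fun p _ => ?_
    rw [Real.log_pow]
  · intro p hp
    exact pow_ne_zero _ (by exact_mod_cast (Nat.prime_of_mem_primeFactors hp).ne_zero)

theorem up_dvd (m : Fin 4) {x : Fin 4 → ℤ} (hx : Adm x) : up m x ∣ (x m).natAbs := by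
  classical
  have h0 := Int.natAbs_ne_zero.2 (hx.ne m)
  conv_rhs => rw [← Nat.prod_factorization_pow_eq_self h0]
  rw [Finsupp.prod]
  unfold up
  refine prod_dvd_prod_of_subset _ _ _ fun p hp => ?_
  rw [Finsupp.mem_support_iff]
  exact (mem_filter.1 hp).2.1

/-- the cofactor -/
noncomputable def cf (m : Fin 4) (x : Fin 4 → ℤ) : ℤ := x m / (up m x : ℤ)

theorem cf_mul (m : Fin 4) {x : Fin 4 → ℤ} (hx : Adm x) : cf m x * (up m x : ℤ) = x m :=
  Int.ediv_mul_cancel (Int.natCast_dvd.2 (up_dvd m hx))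

theorem cf_ne (m : Fin 4) {x : Fin 4 → ℤ} (hx : Adm x) : cf m x ≠ 0 := by
  intro h
  have h1 := cf_mul m hx
  rw [h, zero_mul] at h1
  exact hx.ne m h1.symm

theorem cf_dvd (m : Fin 4) {x : Fin 4 → ℤ} (hx : Adm x) : cf m x ∣ x m :=
  ⟨_, (cf_mul m hx).symm⟩

theorem cf_le (m : Fin 4) {x : Fin 4 → ℤ} {L : ℝ} (hx : Adm x) (hL : |(x m : ℝ)| ≤ Real.exp L) :
    |(cf m x : ℝ)| ≤ Real.exp L := by
  refine le_trans ?_ hL
  have h1 : |cf m x| ≤ |x m| := by
    have h2 := Int.le_of_dvd (abs_pos.2 (hx.ne m)) ((abs_dvd_abs _ _).2 (cf_dvd m hx))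
    exact h2
  exact_mod_cast h1

theorem cf_prime (m : Fin 4) {x : Fin 4 → ℤ} (hx : Adm x) {p : ℕ} (hp : p.Prime) (hPP : p ∈ PP x)
    (hs : Sg m (vl x p)) : ¬ (p : ℤ) ∣ cf m x := by
  classical
  intro h
  have h0 := Int.natAbs_ne_zero.2 (hx.ne m)
  have h1 : p ^ (vl x p m) ∣ up m x := by
    unfold up
    exact dvd_prod_of_mem (fun p => p ^ (vl x p m)) (mem_filter.2 ⟨hPP, hs⟩)
  have h2 : p ^ (vl x p m + 1) ∣ (x m).natAbs := by
    rw [← cf_mul m hx, Int.natAbs_mul, Int.natAbs_natCast, pow_succ, mul_comm]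
    exact mul_dvd_mul (Int.natCast_dvd.1 h) h1
  exact Nat.pow_succ_factorization_not_dvd h0 hp h2

theorem W_nonneg_le {Q : (Fin 4 → ℕ) → Prop} {f : (Fin 4 → ℕ) → ℕ} {x : Fin 4 → ℤ} {n : ℕ} (hn : n ≠ 0)
    (h : ∀ p ∈ n.primeFactors, p ∈ PP x ∧ Q (vl x p) ∧ n.factorization p = f (vl x p)) :
    Real.log n ≤ W Q f x := by
  classical
  rw [log_eq hn]
  unfold W
  calc ∑ p ∈ n.primeFactors, (n.factorization p : ℝ) * Real.log p
      = ∑ p ∈ n.primeFactors, (f (vl x p) : ℝ) * Real.log p :=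
        sum_congr rfl fun p hp => by rw [(h p hp).2.2]
    _ ≤ _ := by
        refine sum_le_sum_of_subset_of_nonneg (fun p hp => mem_filter.2 ⟨(h p hp).1, (h p hp).2.1⟩)
          fun p _ _ => ?_
        exact mul_nonneg (Nat.cast_nonneg _) (Real.log_natCast_nonneg _)

theorem log_gcd {k l : Fin 4} {x : Fin 4 → ℤ} (hx : Adm x) :
    Real.log (Nat.gcd (x k).natAbs (x l).natAbs) ≤
      W (fun v => v k ≠ 0 ∧ v l ≠ 0) (fun v => min (v k) (v l)) x := by
  have hk := Int.natAbs_ne_zero.2 (hx.ne k)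
  have hl := Int.natAbs_ne_zero.2 (hx.ne l)
  have hf := Nat.factorization_gcd hk hl
  refine W_nonneg_le (Nat.gcd_ne_zero_left hk) fun p hp => ?_
  have hpp := Nat.prime_of_mem_primeFactors hp
  have hpd := Nat.dvd_of_mem_primeFactors hp
  have h1 : (p : ℤ) ∣ x k := Int.natCast_dvd.2 (hpd.trans (Nat.gcd_dvd_left _ _))
  have h2 : (p : ℤ) ∣ x l := Int.natCast_dvd.2 (hpd.trans (Nat.gcd_dvd_right _ _))
  refine ⟨mem_of_dvd hx hpp h1, ⟨(vl_ne hx hpp).2 h1, (vl_ne hx hpp).2 h2⟩, ?_⟩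
  rw [hf]
  rfl

theorem W_le (Q : (Fin 4 → ℕ) → Prop) (f : (Fin 4 → ℕ) → ℕ) (x : Fin 4 → ℤ) :
    W Q f x ≤ ∑ p ∈ PP x, (f (vl x p) : ℝ) * Real.log p := by
  classical
  unfold W
  exact sum_le_sum_of_subset_of_nonneg (filter_subset _ _) fun p _ _ =>
    mul_nonneg (Nat.cast_nonneg _) (Real.log_natCast_nonneg _)

theorem W_all {l : Fin 4} {x : Fin 4 → ℤ} (hx : Adm x) :
    W (fun _ => True) (fun v => v l) x ≤ Real.log (x l).natAbs := by
  have hl := Int.natAbs_ne_zero.2 (hx.ne l)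
  rw [log_eq hl]
  refine (W_le _ _ x).trans (le_of_eq ?_)
  symm
  refine sum_subset (fun p hp => mem_PP.2 ⟨l, hp⟩) fun p hp hp2 => ?_
  have h1 : (x l).natAbs.factorization p = 0 := by
    rw [← Nat.support_factorization, Finsupp.mem_support_iff, not_not] at hp2
    exact hp2
  rw [h1, Nat.cast_zero, zero_mul]

/-- numbers `≤ u₁` in one residue class -/
theorem cls {S : Finset ℕ} {u₁ m : ℕ} (h : ∀ u ∈ S, u ≤ u₁ ∧ m ∣ u₁ - u) :
    (S.card : ℝ) ≤ 1 + (u₁ : ℝ) / m := by
  have h1 : S.card ≤ (range (u₁ / m + 1)).card := by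
    refine card_le_card_of_injOn (fun u => (u₁ - u) / m) (fun u hu => ?_) fun u hu v hv huv => ?_
    · rw [mem_coe] at hu ⊢
      rw [mem_range, Nat.lt_succ_iff]
      exact Nat.div_le_div_right (Nat.sub_le _ _)
    · rw [mem_coe] at hu hv
      have e1 := Nat.div_mul_cancel (h u hu).2
      have e2 := Nat.div_mul_cancel (h v hv).2
      have e3 : (u₁ - u) / m = (u₁ - v) / m := huv
      have e4 := (h u hu).1
      have e5 := (h v hv).1
      rw [e3, e2] at e1
      omega
  rw [card_range] at h1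
  have h2 : (S.card : ℝ) ≤ ((u₁ / m : ℕ) : ℝ) + 1 := by exact_mod_cast h1
  have h3 : ((u₁ / m : ℕ) : ℝ) ≤ (u₁ : ℝ) / m := Nat.cast_div_le
  linarith

theorem main (hCN : S_CN) : S_CH2 := by
  classical
  intro k l hkl ε hε
  obtain ⟨D, hD0, hD⟩ := hCN (ε / 4) (by positivity)
  obtain ⟨i, j, hd⟩ := ex4 k l hkl
  obtain ⟨hij, hik, hil, hjk, hjl, -⟩ := id hd
  have hd' : Dist4 j i k l := ⟨hij.symm, hjk, hjl, hik, hil, hkl⟩
  refine ⟨D ^ 4, by positivity, fun L c a b E hL hE hR hA hB => ?_⟩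
  obtain ⟨Q, hQ⟩ : ∃ Q : (Fin 4 → ℕ) → Prop, Q = q2 k l := ⟨_, rfl⟩
  have hR' : ∀ x ∈ E, R Q x ≤ c := by
    rw [hQ]
    exact hR
  obtain ⟨Y, hY⟩ : ∃ Y : ℝ, Y = D * Real.exp (ε / 4 * L) := ⟨_, rfl⟩
  have hY0 : 0 ≤ Y := by
    rw [hY]
    positivity
  -- the primes of the coordinate `m`
  have hprm : ∀ x ∈ E, ∀ m j' : Fin 4, Dist4 m j' k l → ∀ p : ℕ, p.Prime → (p : ℤ) ∣ x m →
      p ∣ rp Q x := by
    intro x hx m j' hd1 p hp hpm
    have hxa := (hE x hx).1
    refine dvd_rp (mem_of_dvd hxa hp hpm) ?_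
    rw [hQ]
    refine ⟨fun h => ?_, fun h => ?_, fun h => ?_⟩
    · exact three hd1 hxa hp hpm ((vl_ne hxa hp).1 h.1) ((vl_ne hxa hp).1 h.2)
    · exact (vl_ne hxa hp).2 hpm (h.2 m hd1.2.2.1)
    · exact (vl_ne hxa hp).2 hpm (h.2 m hd1.2.1)
  -- the values of `r`
  have hr1 : ((E.image (rp Q)).card : ℝ) ≤ Real.exp c := by
    have h1 : E.image (rp Q) ⊆ Icc 1 ⌊Real.exp c⌋₊ := by
      intro r hr
      obtain ⟨x, hx, rfl⟩ := mem_image.1 hr
      have h2 := rp_ne Q x
      rw [mem_Icc]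
      refine ⟨Nat.one_le_iff_ne_zero.2 h2, Nat.le_floor ?_⟩
      have h3 : (0 : ℝ) < rp Q x := by exact_mod_cast Nat.pos_of_ne_zero h2
      rw [← Real.log_le_iff_le_exp h3, log_rp]
      exact hR' x hx
    have h2 := card_le_card h1
    rw [Nat.card_Icc, Nat.add_sub_cancel] at h2
    have h3 : ((E.image (rp Q)).card : ℝ) ≤ (⌊Real.exp c⌋₊ : ℝ) := by exact_mod_cast h2
    exact h3.trans (Nat.floor_le (Real.exp_pos c).le)
  have hab0 : 0 < Real.exp (a - b) := Real.exp_pos _
  have key : (E.card : ℝ) ≤ Real.exp c * (Y * (Y * (Y * (Y * (1 + Real.exp (a - b)))))) := by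
    refine fib E (rp Q) (by positivity) (fun r hr => ?_) hr1
    obtain ⟨x₀, hx₀, hx₀r⟩ := mem_image.1 hr
    have hr0 : r ≠ 0 := by
      rw [← hx₀r]
      exact rp_ne Q x₀
    have hrL : (r : ℝ) ≤ Real.exp (4 * L) := by
      rw [← hx₀r]
      exact rp_le (hE x₀ hx₀).1 (hE x₀ hx₀).2
    have hr9 : (r : ℝ) ≤ 16 * Real.exp (9 * L) := by
      have h1 : Real.exp (4 * L) ≤ Real.exp (9 * L) := Real.exp_le_exp.2 (by linarith)
      have h2 := Real.exp_pos (9 * L)
      linarith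
    obtain ⟨E1, hE1⟩ : ∃ E1, E1 = E.filter fun x => rp Q x = r := ⟨_, rfl⟩
    rw [← hE1]
    have hm1 : ∀ x ∈ E1, x ∈ E ∧ rp Q x = r := by
      intro x hx
      rw [hE1] at hx
      exact mem_filter.1 hx
    have him : ∀ (E' : Finset (Fin 4 → ℤ)), E' ⊆ E1 → ∀ m j' : Fin 4, Dist4 m j' k l →
        ((E'.image fun x => x m).card : ℝ) ≤ Y := by
      intro E' hE' m j' hd1
      rw [hY]
      refine hD L r _ hL hr0 hr9 fun a ha => ?_
      obtain ⟨x, hx, rfl⟩ := mem_image.1 ha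
      obtain ⟨hxE, hxr⟩ := hm1 x (hE' hx)
      refine ⟨(hE x hxE).1.ne m, (hE x hxE).2 m, fun p hp hpm => ?_⟩
      rw [← hxr]
      exact hprm x hxE m j' hd1 p hp hpm
    refine fib E1 (fun x => x i) (by positivity) (fun α hα => ?_) (him E1 (Subset.refl _) i j hd)
    obtain ⟨E2, hE2⟩ : ∃ E2, E2 = E1.filter fun x => x i = α := ⟨_, rfl⟩
    rw [← hE2]
    have hs2 : E2 ⊆ E1 := by
      rw [hE2]
      exact filter_subset _ _
    have hm2 : ∀ x ∈ E2, x i = α := by
      intro x hx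
      rw [hE2] at hx
      exact (mem_filter.1 hx).2
    refine fib E2 (fun x => x j) (by positivity) (fun β hβ => ?_) (him E2 hs2 j i hd')
    obtain ⟨E3, hE3⟩ : ∃ E3, E3 = E2.filter fun x => x j = β := ⟨_, rfl⟩
    rw [← hE3]
    have hs3 : E3 ⊆ E2 := by
      rw [hE3]
      exact filter_subset _ _
    have hm3 : ∀ x ∈ E3, x j = β := by
      intro x hx
      rw [hE3] at hx
      exact (mem_filter.1 hx).2
    have hm3E : ∀ x ∈ E3, x ∈ E ∧ rp Q x = r := fun x hx => hm1 x (hs2 (hs3 hx))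
    have hsum : ∀ x ∈ E3, α + β = -(x k + x l) := by
      intro x hx
      have h5 := (hE x (hm3E x hx).1).1.sum
      rw [sum4 hd, hm2 x (hs3 hx), hm3 x hx] at h5
      linarith
    -- the cofactors of the coordinates `k` and `l`
    have hcf : ∀ (E' : Finset (Fin 4 → ℤ)), E' ⊆ E3 → ∀ m m' : Fin 4, (m = k ∧ m' = l ∨ m = l ∧ m' = k) →
        ((E'.image (cf m)).card : ℝ) ≤ Y := by
      intro E' hE' m m' hmm
      rcases E'.eq_empty_or_nonempty with h0 | ⟨x₁, hx₁'⟩
      · rw [h0, image_empty, card_empty, Nat.cast_zero]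
        exact hY0
      · have hx₁ := hE' hx₁'
        have hx₁E := (hm3E x₁ hx₁).1
        have hab : α + β ≠ 0 := by
          rw [← hm2 x₁ (hs3 hx₁), ← hm3 x₁ hx₁]
          exact (hE x₁ hx₁E).1.pair i j hij
        have hN0 : r * (α + β).natAbs ≠ 0 := mul_ne_zero hr0 (Int.natAbs_ne_zero.2 hab)
        have hNL : ((r * (α + β).natAbs : ℕ) : ℝ) ≤ 16 * Real.exp (9 * L) := by
          push_cast
          have h1 : (((α + β).natAbs : ℕ) : ℝ) ≤ 2 * Real.exp L := by
            rw [Nat.cast_natAbs, Int.cast_abs]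
            push_cast
            have h2 := (hE x₁ hx₁E).2 i
            have h3 := (hE x₁ hx₁E).2 j
            rw [hm2 x₁ (hs3 hx₁)] at h2
            rw [hm3 x₁ hx₁] at h3
            refine (abs_add_le _ _).trans ?_
            linarith
          calc (r : ℝ) * (((α + β).natAbs : ℕ) : ℝ) ≤ Real.exp (4 * L) * (2 * Real.exp L) :=
                mul_le_mul hrL h1 (Nat.cast_nonneg _) (Real.exp_pos _).le
            _ = 2 * Real.exp (5 * L) := by
                rw [mul_comm (2 : ℝ), ← mul_assoc, ← Real.exp_add, mul_comm]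
                ring_nf
            _ ≤ 16 * Real.exp (9 * L) := by
                have h4 : Real.exp (5 * L) ≤ Real.exp (9 * L) := Real.exp_le_exp.2 (by linarith)
                have h5 := Real.exp_pos (9 * L)
                linarith
        rw [hY]
        refine hD L _ _ hL hN0 hNL fun z hz => ?_
        obtain ⟨x, hx', rfl⟩ := mem_image.1 hz
        have hx := hE' hx'
        obtain ⟨hxE, hxr⟩ := hm3E x hx
        have hxa := (hE x hxE).1
        refine ⟨cf_ne m hxa, cf_le m hxa ((hE x hxE).2 m), fun p hp hpc => ?_⟩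
        have hpm : (p : ℤ) ∣ x m := hpc.trans (cf_dvd m hxa)
        have hPP := mem_of_dvd hxa hp hpm
        by_cases hpm' : (p : ℤ) ∣ x m'
        · refine Dvd.dvd.mul_left ?_ r
          rw [← Int.natCast_dvd, hsum x hx]
          rcases hmm with ⟨rfl, rfl⟩ | ⟨rfl, rfl⟩
          · exact (hpm.add hpm').neg_right
          · exact (hpm'.add hpm).neg_right
        · refine Dvd.dvd.mul_right ?_ _
          rw [← hxr]
          refine dvd_rp hPP ?_
          rw [hQ]
          have h7 : ¬ vl x p m' ≠ 0 := fun h => hpm' ((vl_ne hxa hp).1 h)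
          have h8 : ¬ Sg m (vl x p) := fun h => cf_prime m hxa hp hPP h hpc
          rcases hmm with ⟨rfl, rfl⟩ | ⟨rfl, rfl⟩
          · exact ⟨fun h => h7 h.2, fun h => h7 h.1, h8⟩
          · exact ⟨fun h => h7 h.1, h8, fun h => h7 h.1⟩
    refine fib E3 (cf k) (by positivity) (fun A hAm => ?_) (hcf E3 (Subset.refl _) k l (Or.inl ⟨rfl, rfl⟩))
    obtain ⟨E4, hE4⟩ : ∃ E4, E4 = E3.filter fun x => cf k x = A := ⟨_, rfl⟩
    rw [← hE4]
    have hs4 : E4 ⊆ E3 := by
      rw [hE4]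
      exact filter_subset _ _
    have hm4 : ∀ x ∈ E4, cf k x = A := by
      intro x hx
      rw [hE4] at hx
      exact (mem_filter.1 hx).2
    refine fib E4 (cf l) (by positivity) (fun B hBm => ?_) (hcf E4 hs4 l k (Or.inr ⟨rfl, rfl⟩))
    obtain ⟨E5, hE5⟩ : ∃ E5, E5 = E4.filter fun x => cf l x = B := ⟨_, rfl⟩
    rw [← hE5]
    have hs5 : E5 ⊆ E4 := by
      rw [hE5]
      exact filter_subset _ _
    have hm5 : ∀ x ∈ E5, cf l x = B := by
      intro x hx
      rw [hE5] at hx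
      exact (mem_filter.1 hx).2
    have hkA : ∀ x ∈ E5, A * (up k x : ℤ) = x k := by
      intro x hx
      rw [← hm4 x (hs5 hx)]
      exact cf_mul k (hE x (hm3E x (hs4 (hs5 hx))).1).1
    have hlB : ∀ x ∈ E5, B * (up l x : ℤ) = x l := by
      intro x hx
      rw [← hm5 x hx]
      exact cf_mul l (hE x (hm3E x (hs4 (hs5 hx))).1).1
    have hs : ∀ x ∈ E5, A * (up k x : ℤ) + B * (up l x : ℤ) = -(α + β) := by
      intro x hx
      rw [hkA x hx, hlB x hx, hsum x (hs4 (hs5 hx))]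
      ring
    -- `u` determines the point
    have hinj : Set.InjOn (up k) (E5 : Set (Fin 4 → ℤ)) := by
      intro x hx y hy hxy
      rw [mem_coe] at hx hy
      have e1 : x i = y i := by rw [hm2 x (hs3 (hs4 (hs5 hx))), hm2 y (hs3 (hs4 (hs5 hy)))]
      have e2 : x j = y j := by rw [hm3 x (hs4 (hs5 hx)), hm3 y (hs4 (hs5 hy))]
      have e3 : x k = y k := by rw [← hkA x hx, ← hkA y hy, hxy]
      have s1 := hsum x (hs4 (hs5 hx))
      have s2 := hsum y (hs4 (hs5 hy))
      have e4 : x l = y l := by linarith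
      funext m
      rcases all4 hd m with rfl | rfl | rfl | rfl
      · exact e1
      · exact e2
      · exact e3
      · exact e4
    rw [← card_image_of_injOn hinj]
    rcases E5.eq_empty_or_nonempty with h0 | hne
    · rw [h0, image_empty, card_empty, Nat.cast_zero]
      positivity
    · obtain ⟨x₁, hx₁, hmax⟩ := exists_max_image E5 (up k) hne
      have hx₁E := (hm3E x₁ (hs4 (hs5 hx₁))).1
      have hxa := (hE x₁ hx₁E).1
      have hB0 : B ≠ 0 := by
        rw [← hm5 x₁ hx₁]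
        exact cf_ne l hxa
      have hBn := Int.natAbs_ne_zero.2 hB0
      obtain ⟨g, hg⟩ : ∃ g, g = Nat.gcd A.natAbs B.natAbs := ⟨_, rfl⟩
      have hg0 : 0 < g := by
        rw [hg]
        exact Nat.gcd_pos_of_pos_right _ (Nat.pos_of_ne_zero hBn)
      obtain ⟨m, hm⟩ : g ∣ B.natAbs := by
        rw [hg]
        exact Nat.gcd_dvd_right _ _
      obtain ⟨n, hn⟩ : g ∣ A.natAbs := by
        rw [hg]
        exact Nat.gcd_dvd_left _ _
      have hm0 : 0 < m := Nat.pos_of_ne_zero fun h => hBn (by rw [hm, h, mul_zero])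
      have hcop : Nat.Coprime m n := by
        have h1 : g * Nat.gcd m n = g * 1 := by
          rw [← Nat.gcd_mul_left, ← hm, ← hn, Nat.gcd_comm, ← hg, mul_one]
        exact Nat.eq_of_mul_eq_mul_left hg0 h1
      have hcls : ∀ u ∈ E5.image (up k), u ≤ up k x₁ ∧ m ∣ up k x₁ - u := by
        intro u hu
        obtain ⟨x, hx, rfl⟩ := mem_image.1 hu
        refine ⟨hmax x hx, ?_⟩
        have h1 : A * ((up k x₁ : ℤ) - up k x) = B * ((up l x : ℤ) - up l x₁) := by
          have e1 := hs x hx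
          have e2 := hs x₁ hx₁
          linear_combination e2 - e1
        have h2 : A.natAbs * (up k x₁ - up k x) = B.natAbs * ((up l x : ℤ) - up l x₁).natAbs := by
          have h3 := congrArg Int.natAbs h1
          rw [Int.natAbs_mul, Int.natAbs_mul] at h3
          rw [← h3]
          congr 1
          have h4 := hmax x hx
          omega
        rw [hm, hn, mul_assoc, mul_assoc] at h2
        have h5 := Nat.eq_of_mul_eq_mul_left hg0 h2
        exact hcop.dvd_of_dvd_mul_left ⟨_, h5⟩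
      refine (cls hcls).trans ?_
      have hfin : (up k x₁ : ℝ) / m ≤ Real.exp (a - b) := by
        have hl : (x₁ l).natAbs = m * g * up l x₁ := by
          rw [← hlB x₁ hx₁, Int.natAbs_mul, Int.natAbs_natCast, hm, mul_comm g m]
        have hgle : g ≤ Nat.gcd (x₁ k).natAbs (x₁ l).natAbs := by
          refine Nat.le_of_dvd (Nat.gcd_pos_of_pos_left _ (Nat.pos_of_ne_zero (Int.natAbs_ne_zero.2 (hxa.ne k)))) ?_
          refine Nat.dvd_gcd ?_ ?_
          · rw [← hkA x₁ hx₁, Int.natAbs_mul, hn]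
            exact Dvd.dvd.mul_right (dvd_mul_right g n) _
          · rw [← hlB x₁ hx₁, Int.natAbs_mul, hm]
            exact Dvd.dvd.mul_right (dvd_mul_right g m) _
        have hlg : Real.log g ≤ W (fun v => v k ≠ 0 ∧ v l ≠ 0) (fun v => min (v k) (v l)) x₁ := by
          refine le_trans ?_ (log_gcd hxa)
          exact Real.log_le_log (by exact_mod_cast hg0) (by exact_mod_cast hgle)
        have hu0 : (0 : ℝ) < up k x₁ := by exact_mod_cast Nat.pos_of_ne_zero (up_ne k x₁)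
        have hw0 : (0 : ℝ) < up l x₁ := by exact_mod_cast Nat.pos_of_ne_zero (up_ne l x₁)
        have hg0' : (0 : ℝ) < g := by exact_mod_cast hg0
        have hm0' : (0 : ℝ) < m := by exact_mod_cast hm0
        have h1 := hA x₁ hx₁E
        have h2 := (hB x₁ hx₁E).trans (W_all hxa)
        rw [← log_up, ← log_up] at h1
        rw [hl] at h2
        push_cast at h2
        rw [Real.log_mul (by positivity) hw0.ne', Real.log_mul hm0'.ne' hg0'.ne'] at h2
        rw [← Real.log_le_iff_le_exp (by positivity), Real.log_div hu0.ne' hm0'.ne']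
        linarith
      linarith
  refine key.trans (le_of_eq ?_)
  rw [hY]
  have h1 : Real.exp (ε * L) = Real.exp (ε / 4 * L) ^ 4 := by
    rw [← Real.exp_nat_mul]
    congr 1
    push_cast
    ring
  have h2 : Real.exp (c + a - b) = Real.exp c * Real.exp (a - b) := by
    rw [← Real.exp_add]
    congr 1
    ring
  rw [h1, h2]
  ring

end Pool.Agent.Helper56.Q3.CH2
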