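import Pool.Agent.Helper54.Q.Stm

/-!
# The strategy with two free types of single primes, and the real inequality with it (statements)
-/

set_option autoImplicit false

namespace Pool.Agent.Helper56.Q3

open Finset Pool.Agent.Helper54.Q

/-- the primes dividing `x l` only -/
def Sg (l : Fin 4) (v : Fin 4 → ℕ) : Prop := v l ≠ 0 ∧ ∀ i, i ≠ l → v i = 0

/-- the paid primes: all but those of the types `{k, l}`, `{k}`, `{l}` -/
def q2 (k l : Fin 4) (v : Fin 4 → ℕ) : Prop := ¬ (v k ≠ 0 ∧ v l ≠ 0) ∧ ¬ Sg l v ∧ ¬ Sg k v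

/-- CH2 (given S_CN; proof: extend `Chn.lean`). As in CHN choose `r` (product of the paid primes), `x i`, `x j`;
`M = x i + x j ≠ 0`. Let `u = ∏ p ^ (v k)` over the primes with `Sg k`, `w = ∏ p ^ (v l)` over those with `Sg l`, `x k = A u`,
`x l = B w`. `A` and `B` are composed of primes of `r |M|`: two more applications of CN. For given `r, x i, x j, A, B`:
`A u + B w = - M`; `u` determines `w` and `x`. `gcd (A, B) = gcd (x k, x l) =: h` (`u` is prime to `x l`, `w` is prime to `x k`),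
`log h = W (v k ≠ 0 ∧ v l ≠ 0) (min (v k) (v l)) x`. For two points `A (u - u') = B (w' - w)`, so `|B| / h` divides `u - u'`:
if `u₁ = u (x₁)` is the largest, the number of the `u` is at most `1 + u₁ h / |B| = 1 + u₁ w (x₁) h / |x₁ l| ≤ 1 + exp (a - b)`. -/
def S_CH2 : Prop := ∀ k l : Fin 4, k ≠ l → ∀ ε : ℝ, 0 < ε → ∃ D : ℝ, 0 < D ∧
  ∀ (L c a b : ℝ) (E : Finset (Fin 4 → ℤ)), 0 ≤ L → Fam E L →
  (∀ x ∈ E, R (q2 k l) x ≤ c) →
  (∀ x ∈ E, W (Sg k) (fun v => v k) x + W (Sg l) (fun v => v l) x +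
    W (fun v => v k ≠ 0 ∧ v l ≠ 0) (fun v => min (v k) (v l)) x ≤ a) →
  (∀ x ∈ E, b ≤ W (fun _ => True) (fun v => v l) x) →
  (E.card : ℝ) ≤ D * Real.exp (ε * L) * (Real.exp c + Real.exp (c + a - b))

end Pool.Agent.Helper56.Q3
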