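import Pool.Agent.Helper54.Q.Point3
import Pool.Agent.Helper56.Q3.Stm
import Pool.Agent.Helper56.Q3.Stm4

/-!
# Every quadruple has a cheap strategy, six strategies (helper95; extends `Pool.Agent.Helper54.Q.point` of helper54)
-/

set_option autoImplicit false

namespace Pool.Agent.Helper56.Q3

open Finset Pool.Agent.Helper54.Q

/-- the `a` of CH2 -/
noncomputable def aF (k l : Fin 4) (x : Fin 4 → ℤ) : ℝ :=
  W (Sg k) (fun v => v k) x + W (Sg l) (fun v => v l) x +
    W (fun v => v k ≠ 0 ∧ v l ≠ 0) (fun v => min (v k) (v l)) x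

/-- the `b` of CH2 -/
noncomputable def bF (l : Fin 4) (x : Fin 4 → ℤ) : ℝ := W (fun _ => True) (fun v => v l) x

/-- one of the six strategies is cheap -/
def Some6 (E : ℕ) (θ L : ℝ) (x : Fin 4 → ℤ) : Prop := Some5 E θ L x ∨
  (∃ k ∈ (univ : Finset (Fin 4)), ∃ l ∈ (univ : Finset (Fin 4)), k ≠ l ∧
    Cheap θ (R (q2 k l)) (aF k l) (bF l) L x)

/-- the strategy CH2 -/
theorem strat_CH2 (h : S_CH2) (k l : Fin 4) (hkl : k ≠ l) : Strat (R (q2 k l)) (aF k l) (bF l) := by
  intro ε hε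
  obtain ⟨D, hD, hh⟩ := h k l hkl ε hε
  exact ⟨D, hD, fun L c0 a0 w0 F hL hF _ hc ha hw => hh L c0 a0 w0 F hL hF hc ha hw⟩

open Classical in
theorem pt_6c (k l : Fin 4) (hkl : k ≠ l) (v : Fin 4 → ℕ) :
    (if Sg k v then (v k : ℝ) else 0) + (if Sg l v then (v l : ℝ) else 0) +
      (if v k ≠ 0 ∧ v l ≠ 0 then ((min (v k) (v l) : ℕ) : ℝ) else 0) ≤ ((∑ i, v i : ℕ) : ℝ) := by
  have hk : v k ≤ ∑ i, v i := single_le_sum (f := v) (fun _ _ => Nat.zero_le _) (mem_univ k)
  have hl : v l ≤ ∑ i, v i := single_le_sum (f := v) (fun _ _ => Nat.zero_le _) (mem_univ l)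
  have h1 : (if Sg k v then v k else 0) + (if Sg l v then v l else 0) +
      (if v k ≠ 0 ∧ v l ≠ 0 then min (v k) (v l) else 0) ≤ ∑ i, v i := by
    by_cases h1 : Sg k v
    · have h2 := h1.2 l hkl.symm
      have h3 : ¬ Sg l v := fun h => h.1 h2
      rw [if_pos h1, if_neg h3]
      split_ifs <;> omega
    · rw [if_neg h1]
      by_cases h3 : Sg l v
      · have h2 := h3.2 k hkl
        rw [if_pos h3]
        split_ifs <;> omega
      · rw [if_neg h3]
        split_ifs <;> omega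
  exact_mod_cast h1

theorem Bdd_aF (k l : Fin 4) (hkl : k ≠ l) : Bdd (aF k l) := by
  classical
  intro L x hL hx hxL
  have e : aF k l x = Ph (fun v => (if Sg k v then (v k : ℝ) else 0) + (if Sg l v then (v l : ℝ) else 0) +
      (if v k ≠ 0 ∧ v l ≠ 0 then ((min (v k) (v l) : ℕ) : ℝ) else 0)) x := by
    unfold aF
    rw [W_eq, W_eq, W_eq, Ph_add, Ph_add]
    congr!
  rw [e]
  constructor
  · exact Ph_nonneg fun v => by positivity
  · exact (Ph_le hx fun v _ => pt_6c k l hkl v).trans (Ph_height_le hx hxL)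

theorem Bdd_bF (l : Fin 4) : Bdd (bF l) := by
  refine Bdd_W _ _ ?_
  intro v _
  exact single_le_sum (f := v) (fun _ _ => Nat.zero_le _) (mem_univ _)

/-- the points with a cheap CH2 -/
theorem Ok_six (h : S_CH2) (θ : ℝ) : Ok θ (fun L x => ∃ k ∈ (univ : Finset (Fin 4)),
    ∃ l ∈ (univ : Finset (Fin 4)), k ≠ l ∧ Cheap θ (R (q2 k l)) (aF k l) (bF l) L x) :=
  Ok_ex θ _ fun k _ => Ok_ex θ _ fun l _ => Ok_and θ fun hkl =>
    Ok_strat θ (strat_CH2 h k l hkl) (Bdd_R _) (Bdd_aF k l hkl) (Bdd_bF l)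

theorem Ok_Some6 (h : S_CH2) (E : ℕ) (θ : ℝ) (h5 : Ok θ (fun L x => Some5 E θ L x)) :
    Ok θ (fun L x => Some6 E θ L x) := Ok_or θ h5 (Ok_six h θ)

open Classical in
theorem pt_height3 (E : ℕ) (v : Fin 4 → ℕ) (hv : Gd v) :
    (∑ i : Fin 4, ∑ j : Fin 4, (if i = j then (0 : ℝ) else
      (if v i ∈ Icc 1 E ∧ v j ∈ Icc 1 E then ((v i : ℝ) + v j) else 0))) +
      2 * ∑ i : Fin 4, (if Sg i v then (v i : ℝ) else 0) ≤ 2 * ((∑ i, v i : ℕ) : ℝ) := by
  obtain ⟨a1, a2, a3, a4, a5⟩ := hv.ex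
  simp only [Fin.sum_univ_four]
  unfold Sg
  simp only [only0, only1, only2, only3]
  generalize v 0 = a at *
  generalize v 1 = b at *
  generalize v 2 = c at *
  generalize v 3 = d at *
  simp only [mem_Icc]
  by_cases ha : a = 0 <;> by_cases hb : b = 0 <;> by_cases hc : c = 0 <;> by_cases hd : d = 0 <;>
    first
      | (exfalso; omega)
      | (subst_vars
         simp [*]
         try (split_ifs <;> first | (exfalso; omega) | nlinarith))

open Classical in
theorem pt_6a (E : ℕ) (k l : Fin 4) (hkl : k ≠ l) (v : Fin 4 → ℕ) :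
    (if q2 k l v then (1 : ℝ) else 0) + (if v k ∈ Icc 1 E ∧ v l ∈ Icc 1 E then 1 else 0) +
      (if Sg k v then 1 else 0) + (if Sg l v then 1 else 0) ≤ 1 := by
  unfold q2
  by_cases h1 : Sg k v
  · have h2 := h1.2 l hkl.symm
    have h3 : ¬ Sg l v := fun h => h.1 h2
    have h4 : ¬ (v k ∈ Icc 1 E ∧ v l ∈ Icc 1 E) := by
      rw [h2]
      simp
    rw [if_neg (fun h => h.2.2 h1), if_neg h4, if_pos h1, if_neg h3]
    norm_num
  · by_cases h3 : Sg l v
    · have h2 := h3.2 k hkl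
      have h4 : ¬ (v k ∈ Icc 1 E ∧ v l ∈ Icc 1 E) := by
        rw [h2]
        simp
      rw [if_neg (fun h => h.2.1 h3), if_neg h4, if_neg h1, if_pos h3]
      norm_num
    · rw [if_neg h1, if_neg h3]
      by_cases h4 : v k ∈ Icc 1 E ∧ v l ∈ Icc 1 E
      · have h5 : v k ≠ 0 ∧ v l ≠ 0 := by
          rw [mem_Icc, mem_Icc] at h4
          omega
        rw [if_neg (fun h => h.1 h5), if_pos h4]
        norm_num
      · rw [if_neg h4]
        split_ifs <;> norm_num

open Classical in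
theorem pt_6b (E : ℕ) (i j k l : Fin 4) (hd : Dist4 i j k l) (v : Fin 4 → ℕ) (hv : Gd v) :
    (if Sg l v then (v l : ℝ) else 0) + (if v k ≠ 0 ∧ v l ≠ 0 then ((min (v k) (v l) : ℕ) : ℝ) else 0) +
      (if v i ∈ Icc 1 E ∧ v l ∈ Icc 1 E then 1 else 0) + (if v j ∈ Icc 1 E ∧ v l ∈ Icc 1 E then 1 else 0) ≤
      (v l : ℝ) := by
  obtain ⟨hij, hik, hil, hjk, hjl, hkl⟩ := hd
  have a1 := hv.2 i j l hij hil hjl
  have a2 := hv.2 i k l hik hil hkl
  have a3 := hv.2 j k l hjk hjl hkl
  have h1 : (if Sg l v then v l else 0) + (if v k ≠ 0 ∧ v l ≠ 0 then min (v k) (v l) else 0) +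
      (if v i ∈ Icc 1 E ∧ v l ∈ Icc 1 E then 1 else 0) + (if v j ∈ Icc 1 E ∧ v l ∈ Icc 1 E then 1 else 0) ≤
      v l := by
    by_cases hs : Sg l v
    · have b1 := hs.2 i hil
      have b2 := hs.2 j hjl
      have b3 := hs.2 k hkl
      rw [if_pos hs]
      simp only [mem_Icc]
      split_ifs <;> omega
    · rw [if_neg hs]
      simp only [mem_Icc]
      split_ifs <;> omega
  exact_mod_cast h1

theorem pointq (η κ h₀ : ℝ) (hAR : S_AR3p η κ h₀) (E : ℕ) (hE3 : 3 ≤ E) (L : ℝ) (hL : 0 < L) (x : Fin 4 → ℤ)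
    (hx : Adm x) (hhe : Ph (fun v => ((∑ i, v i : ℕ) : ℝ)) x ≤ (4 + h₀) * L)
    (hh2 : Ph (fun v => ((∑ i, v i : ℕ) : ℝ)) x ≤ κ * ((E : ℝ) + 1) * L)
    (hR : R (fun _ => True) x ≤ (1 + κ) * L) : Some6 E (5 / 6 - η) L x := by
  classical
  by_contra hcon
  unfold Some6 Some5 at hcon
  rw [not_or, not_or, not_or, not_or, not_or] at hcon
  obtain ⟨⟨n1, n2, n3, n4, n5⟩, n6⟩ := hcon
  set ρ : ℝ := R (fun _ => True) x / L with hρ
  have hρL : ρ * L = Ph (fun _ => 1) x := by
    rw [hρ, R_true]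
    field_simp
  set T : ℝ := Ph (TT E) x / L with hT
  have hTL : T * L = Ph (TT E) x := by
    rw [hT]
    field_simp
  refine hAR E (mm L x) (ss L x) (fun l => W (Sg l) (fun v => v l) x / L) (ρ - T) ρ hE3
    ?_ ?_ ?_ ?_ ?_ ?_ ?_ ?_ ?_ ?_ ?_ ?_ ?_ ?_ ?_
  · intro i j p q
    exact div_nonneg (R_nonneg' _ _) hL.le
  · intro i j p q
    unfold mm
    have : (fun v : Fin 4 → ℕ => v i = p ∧ v j = q) = fun v => v j = q ∧ v i = p := by
      funext v
      exact propext and_comm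
    rw [this]
  · intro i
    exact div_nonneg (R_nonneg' _ _) hL.le
  · -- s ≤ σ
    intro i
    show R (Sg i) x / L ≤ W (Sg i) (fun v => v i) x / L
    gcongr
    rw [R_eq, W_eq]
    refine Ph_le hx fun v _ => ?_
    by_cases hs : Sg i v
    · rw [if_pos hs, if_pos hs]
      exact_mod_cast Nat.one_le_iff_ne_zero.2 hs.1
    · rw [if_neg hs, if_neg hs]
  · -- 0 ≤ t
    have : Ph (TT E) x ≤ Ph (fun _ => 1) x := Ph_le hx fun v hv => TT_le E v hv
    rw [sub_nonneg]
    exact le_of_mul_le_mul_right (by rw [hρL, hTL]; exact this) hL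
  · -- t ≤ κ
    have h1 : Ph (fun _ => 1) x ≤ Ph (TT E) x + 1 / ((E : ℝ) + 1) * Ph (fun v => ((∑ i, v i : ℕ) : ℝ)) x := by
      rw [Ph_mul, Ph_add]
      exact Ph_le hx fun v hv => TT_ge E v hv
    have hE0 : (0 : ℝ) < (E : ℝ) + 1 := by positivity
    have h2 : 1 / ((E : ℝ) + 1) * Ph (fun v => ((∑ i, v i : ℕ) : ℝ)) x ≤ κ * L := by
      rw [one_div, inv_mul_eq_div, div_le_iff₀ hE0]
      refine hh2.trans (le_of_eq ?_)
      ring
    have h4 : ρ * L ≤ (T + κ) * L := by
      rw [hρL, add_mul, hTL]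
      linarith
    have := le_of_mul_le_mul_right h4 hL
    linarith
  · -- ρ ≤ 1 + κ
    rw [hρ, div_le_iff₀ hL]
    exact hR
  · rw [sum_TT, ← hT]
    ring
  · -- height
    have h1 : (∑ i : Fin 4, ∑ j : Fin 4, (if i = j then (0 : ℝ) else
        ∑ p ∈ Icc 1 E, ∑ q ∈ Icc 1 E, ((p : ℝ) + q) * mm L x i j p q)) =
        Ph (fun v => ∑ i : Fin 4, ∑ j : Fin 4, (if i = j then (0 : ℝ) else
      (if v i ∈ Icc 1 E ∧ v j ∈ Icc 1 E then ((v i : ℝ) + v j) else 0))) x / L := by
      rw [← Ph_sum, sum_div]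
      refine sum_congr rfl fun i _ => ?_
      rw [← Ph_sum, sum_div]
      refine sum_congr rfl fun j _ => ?_
      by_cases hij : i = j
      · simp only [hij, if_true]
        unfold Ph
        simp
      · simp only [hij, if_false]
        rw [mm_dbl E L x i j (fun p q => (p : ℝ) + q)]
    have h2 : 2 * ∑ i : Fin 4, W (Sg i) (fun v => v i) x / L =
        Ph (fun v => 2 * ∑ i : Fin 4, (if Sg i v then (v i : ℝ) else 0)) x / L := by
      have e1 : ∀ i ∈ (univ : Finset (Fin 4)), W (Sg i) (fun v => v i) x / L =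
          Ph (fun v => if Sg i v then (v i : ℝ) else 0) x / L := by
        intro i _
        rw [W_eq]
      rw [sum_congr rfl e1, ← sum_div, Ph_sum, ← mul_div_assoc, Ph_mul]
    show _ + 2 * ∑ i : Fin 4, W (Sg i) (fun v => v i) x / L ≤ _
    rw [h1, h2, ← add_div, div_le_iff₀ hL, Ph_add]
    calc _ ≤ Ph (fun v => 2 * ((∑ i, v i : ℕ) : ℝ)) x := Ph_le hx fun v hv => by
          have := pt_height3 E v hv
          convert this
      _ = 2 * Ph (fun v => ((∑ i, v i : ℕ) : ℝ)) x := (Ph_mul _ _ _).symm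
      _ ≤ 2 * ((4 + h₀) * L) := by gcongr
      _ = 2 * (4 + h₀) * L := by ring
  · -- chain
    intro k l hkl
    by_contra h
    push Not at h
    apply n1
    have h1 : R (qCH k l) x + U E (mm L x) k l * L + ss L x l * L ≤ ρ * L := by
      rw [mm_U, hρL]
      unfold ss
      rw [R_eq, R_eq, div_mul_cancel₀ _ hL.ne', div_mul_cancel₀ _ hL.ne', Ph_add, Ph_add]
      refine Ph_le hx fun v _ => ?_
      have := pt_CH E k l hkl v
      convert this
    have h2 : R (qCH k l) x ≤ (5 / 6 - η) * L := by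
      have : (ρ - U E (mm L x) k l - ss L x l) * L ≤ (5 / 6 - η) * L := by gcongr
      linarith
    refine ⟨k, mem_univ _, l, mem_univ _, hkl, h2, ?_⟩
    unfold Z0
    linarith
  · -- EQ
    intro i j k l hd
    by_contra h
    push Not at h
    apply n2
    have h1 : R (qEQ i j k l) x + U E (mm L x) k l * L + (∑ p ∈ Icc 1 E, mm L x i j p p) * L ≤ ρ * L := by
      rw [mm_U, mm_dgl, hρL]
      rw [R_eq, div_mul_cancel₀ _ hL.ne', div_mul_cancel₀ _ hL.ne', Ph_add, Ph_add]
      refine Ph_le hx fun v hv => ?_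
      have := pt_EQ E i j k l hd v hv
      convert this
    have h2 : R (qEQ i j k l) x ≤ (5 / 6 - η) * L := by
      have : (ρ - U E (mm L x) k l - ∑ p ∈ Icc 1 E, mm L x i j p p) * L ≤ (5 / 6 - η) * L := by gcongr
      linarith
    refine ⟨(i, j, k, l), mem_univ _, hd, h2, ?_⟩
    unfold Z0
    linarith
  · -- SA
    intro i j k l hd e he
    by_contra h
    push Not at h
    apply n3
    set G := ∑ q ∈ Icc 1 E, (mm L x i k e q + mm L x i l e q + mm L x j k e q + mm L x j l e q) with hG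
    set V := ∑ p ∈ Icc 1 E, ∑ q ∈ Icc 1 E, ((min p q : ℕ) : ℝ) * mm L x k l p q with hV
    have h1 : R (fun v => ¬ selA i j e v) x + R (selA i j e) x = ρ * L := by
      rw [R_eq, R_eq, Ph_add, hρL]
      congr 1
      funext v
      by_cases hs : selA i j e v <;> simp [hs]
    have h2 : G * L ≤ R (selA i j e) x := by
      rw [hG, sum_add_distrib, sum_add_distrib, sum_add_distrib, mm_sgl, mm_sgl, mm_sgl, mm_sgl,
        ← add_div, ← add_div, ← add_div, div_mul_cancel₀ _ hL.ne', Ph_add, Ph_add, Ph_add, R_eq]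
      refine Ph_le hx fun v hv => ?_
      have := pt_G E i j k l hd e (mem_Icc.1 he).1 v hv
      convert this
    have h3 : V * L = W (qW E k l) (fun v => min (v k) (v l)) x := by
      rw [hV, mm_dbl E L x k l (fun p q => ((min p q : ℕ) : ℝ)), div_mul_cancel₀ _ hL.ne', W_eq]
      congr 1
      funext v
      unfold qW
      have : (v k ∈ Icc 1 E ∧ v l ∈ Icc 1 E) ↔ (v k ≠ 0 ∧ v l ≠ 0 ∧ v k ≤ E ∧ v l ≤ E) := by
        rw [mem_Icc, mem_Icc]
        omega
      simp only [this]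
      congr!
    have h4 : (ρ - min G V) * L ≤ (5 / 6 - η) * L := by gcongr
    have h5 : (ρ - G) * L ≤ (ρ - min G V) * L := by
      have := min_le_left G V
      gcongr
    have h6 : (ρ - V) * L ≤ (ρ - min G V) * L := by
      have := min_le_right G V
      gcongr
    refine ⟨(i, j, k, l), mem_univ _, hd, e, he, ?_, ?_⟩
    · show R (fun v => ¬ selA i j e v) x ≤ _
      linarith
    · show R (fun v => ¬ selA i j e v) x + R (selA i j e) x - W (qW E k l) (fun v => min (v k) (v l)) x ≤ _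
      rw [h1, ← h3]
      linarith
  · -- SB
    intro l e he S hS
    by_contra h
    push Not at h
    apply n4
    set σ := ∑ y ∈ S, mm L x y.1 l e y.2 with hσ
    have h1 : R (fun v => ¬ qS l e S v) x + R (qS l e S) x = ρ * L := by
      rw [R_eq, R_eq, Ph_add, hρL]
      congr 1
      funext v
      by_cases hs : qS l e S v <;> simp [hs]
    have h2 : σ * L = R (qS l e S) x := by
      have h2' : ∀ y ∈ S, mm L x y.1 l e y.2 = Ph (fun v => if v y.1 = e ∧ v l = y.2 then 1 else 0) x / L := by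
        intro y _
        unfold mm
        rw [R_eq]
        congr!
      rw [hσ, sum_congr rfl h2', ← sum_div, Ph_sum, div_mul_cancel₀ _ hL.ne', R_eq]
      refine le_antisymm (Ph_le hx fun v hv => ?_) (Ph_le hx fun v hv => ?_)
      · have := (pt_S E l e (mem_Icc.1 he).1 S hS v hv).le
        convert this
      · have := (pt_S E l e (mem_Icc.1 he).1 S hS v hv).ge
        convert this
    set V := (∑ i ∈ univ.erase l, U E (mm L x) i l) with hV
    have h3 : V * L ≤ R (qS l e S) x + R (qM l (qS l e S)) x := by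
      rw [hV, sum_congr rfl fun i _ => mm_U E L x i l, ← sum_div, Ph_sum, div_mul_cancel₀ _ hL.ne', R_eq,
        R_eq, Ph_add]
      refine Ph_le hx fun v hv => ?_
      have := pt_M E l (qS l e S) v hv
      convert this
    have h4 : (ρ - min σ (V - σ)) * L ≤ (5 / 6 - η) * L := by gcongr
    have h5 : (ρ - σ) * L ≤ (ρ - min σ (V - σ)) * L := by
      have := min_le_left σ (V - σ)
      gcongr
    have h6 : (ρ - (V - σ)) * L ≤ (ρ - min σ (V - σ)) * L := by
      have := min_le_right σ (V - σ)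
      gcongr
    refine ⟨l, mem_univ _, e, he, S, ?_, ?_, ?_⟩
    · rw [mem_powerset]
      intro y hy
      rw [mem_product]
      exact ⟨mem_erase.2 ⟨(hS y hy).1, mem_univ _⟩, (hS y hy).2⟩
    · linarith
    · linarith
  · -- AT
    intro i j k l hd e he q hq q' hq' heq heq'
    by_contra h
    push Not at h
    apply n5
    set m1 := mm L x i l e q with hm1
    set m2 := mm L x j l e q' with hm2
    have e1 : R (fun v => v i = e ∧ v l = q) x = m1 * L := by
      rw [hm1]
      unfold mm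
      rw [div_mul_cancel₀ _ hL.ne']
    have e2 : R (fun v => v j = e ∧ v l = q') x = m2 * L := by
      rw [hm2]
      unfold mm
      rw [div_mul_cancel₀ _ hL.ne']
    have h1 : R (qAT i j l e q q') x + m1 * L + m2 * L ≤ ρ * L := by
      rw [← e1, ← e2, hρL, R_eq, R_eq, R_eq, Ph_add, Ph_add]
      refine Ph_le hx fun v hv => ?_
      have := pt_AT i j l hd.1 hd.2.2.1 hd.2.2.2.2.1 e q q' (mem_Icc.1 he).1 (mem_Icc.1 hq).1 v hv
      convert this
    have h2 : U E (mm L x) k l * L ≤ R (fun v => v k ≠ 0 ∧ v l ≠ 0) x := by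
      rw [mm_U, div_mul_cancel₀ _ hL.ne', R_eq]
      refine Ph_le hx fun v hv => ?_
      by_cases h3 : v k ∈ Icc 1 E ∧ v l ∈ Icc 1 E
      · have h4 : v k ≠ 0 ∧ v l ≠ 0 := by
          rw [mem_Icc, mem_Icc] at h3
          omega
        simp [h3, h4]
      · rw [if_neg h3]
        split_ifs <;> norm_num
    have h4 : (ρ - m1 - m2 + max 0 (max m1 m2 - U E (mm L x) k l / 2)) * L ≤ (5 / 6 - η) * L := by gcongr
    have h5 : (ρ - m1 - m2) * L ≤ (ρ - m1 - m2 + max 0 (max m1 m2 - U E (mm L x) k l / 2)) * L := by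
      have := le_max_left 0 (max m1 m2 - U E (mm L x) k l / 2)
      gcongr
      linarith
    have h6 : (ρ - m1 - m2 + (max m1 m2 - U E (mm L x) k l / 2)) * L ≤
        (ρ - m1 - m2 + max 0 (max m1 m2 - U E (mm L x) k l / 2)) * L := by
      have := le_max_right 0 (max m1 m2 - U E (mm L x) k l / 2)
      gcongr
    have h7 : max (m1 * L) (m2 * L) = max m1 m2 * L := (max_mul_of_nonneg m1 m2 hL.le).symm
    refine ⟨(i, j, k, l), mem_univ _, hd, e, he, q, hq, q', hq', ⟨heq, heq'⟩, ?_, ?_⟩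
    · show R (qAT i j l e q q') x ≤ _
      linarith
    · show R (qAT i j l e q q') x + max (R (fun v => v i = e ∧ v l = q) x) (R (fun v => v j = e ∧ v l = q') x) -
        R (fun v => v k ≠ 0 ∧ v l ≠ 0) x / 2 ≤ _
      rw [e1, e2, h7]
      linarith
  · -- CH2
    intro i j k l hd
    by_contra h
    push Not at h
    apply n6
    have hkl : k ≠ l := hd.2.2.2.2.2
    have h1 : R (q2 k l) x + U E (mm L x) k l * L + ss L x k * L + ss L x l * L ≤ ρ * L := by
      have es : ∀ m : Fin 4, ss L x m = R (Sg m) x / L := fun _ => rfl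
      rw [mm_U, hρL, es, es, R_eq, R_eq, R_eq, div_mul_cancel₀ _ hL.ne', div_mul_cancel₀ _ hL.ne',
        div_mul_cancel₀ _ hL.ne', Ph_add, Ph_add, Ph_add]
      refine Ph_le hx fun v _ => ?_
      have := pt_6a E k l hkl v
      convert this
    have h2 : W (Sg l) (fun v => v l) x + W (fun v => v k ≠ 0 ∧ v l ≠ 0) (fun v => min (v k) (v l)) x +
        U E (mm L x) i l * L + U E (mm L x) j l * L ≤ bF l x := by
      unfold bF
      rw [mm_U, mm_U, W_eq, W_eq, W_eq, div_mul_cancel₀ _ hL.ne', div_mul_cancel₀ _ hL.ne',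
        Ph_add, Ph_add, Ph_add]
      refine Ph_le hx fun v hv => ?_
      have := pt_6b E i j k l hd v hv
      rw [if_pos trivial]
      convert this
    have e3 : (fun l : Fin 4 => W (Sg l) (fun v => v l) x / L) k * L = W (Sg k) (fun v => v k) x :=
      div_mul_cancel₀ _ hL.ne'
    set σk : ℝ := (fun l : Fin 4 => W (Sg l) (fun v => v l) x / L) k with hσk
    set V : ℝ := σk - U E (mm L x) i l - U E (mm L x) j l with hV
    have h4 : (ρ - U E (mm L x) k l - ss L x k - ss L x l + max 0 V) * L ≤ (5 / 6 - η) * L := by gcongr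
    have h5 : (ρ - U E (mm L x) k l - ss L x k - ss L x l) * L ≤
        (ρ - U E (mm L x) k l - ss L x k - ss L x l + max 0 V) * L := by
      have := le_max_left 0 V
      gcongr
      linarith
    have h6 : (ρ - U E (mm L x) k l - ss L x k - ss L x l + V) * L ≤
        (ρ - U E (mm L x) k l - ss L x k - ss L x l + max 0 V) * L := by
      have := le_max_right 0 V
      gcongr
    have h7 : V * L = W (Sg k) (fun v => v k) x - U E (mm L x) i l * L - U E (mm L x) j l * L := by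
      rw [hV, sub_mul, sub_mul, e3]
    refine ⟨k, mem_univ _, l, mem_univ _, hkl, ?_, ?_⟩
    · linarith
    · have h8 : aF k l x = W (Sg k) (fun v => v k) x + W (Sg l) (fun v => v l) x +
          W (fun v => v k ≠ 0 ∧ v l ≠ 0) (fun v => min (v k) (v l)) x := rfl
      rw [h8]
      linarith

theorem point6 (η κ h₀ : ℝ) (hAR : S_AR3p η κ h₀) (E : ℕ) (hE3 : 3 ≤ E)
    (hE : 4 + h₀ ≤ κ * ((E : ℝ) + 1)) (L : ℝ) (hL : 0 < L) (x : Fin 4 → ℤ)
    (hx : Adm x) (hhe : Ph (fun v => ((∑ i, v i : ℕ) : ℝ)) x ≤ (4 + h₀) * L)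
    (hR : R (fun _ => True) x ≤ (1 + κ) * L) : Some6 E (5 / 6 - η) L x :=
  pointq η κ h₀ hAR E hE3 L hL x hx hhe (hhe.trans (by gcongr)) hR

theorem Some6_scale (E : ℕ) (θ lam L : ℝ) (x : Fin 4 → ℤ) (h : Some6 E θ (lam * L) x) :
    Some6 E (lam * θ) L x := by
  unfold Some6 Some5 Cheap at *
  have e : θ * (lam * L) = lam * θ * L := by ring
  simp only [e] at h
  exact h

end Pool.Agent.Helper56.Q3
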