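import Pool.Agent.Helper54.Q.Asm
import Pool.Agent.Helper56.Q3.Pt

/-!
# The quadruples with one of the six cheap strategies are few (helper95)
-/

set_option autoImplicit false

namespace Pool.Agent.Helper56.Q3

open Finset Pool.Agent.Helper54.Q

theorem Ok_Some6' (hCHN : S_CHN) (hEQ : S_EQ) (hSA : S_SA) (hSB : S_SB) (hAT : S_AT) (hCH2 : S_CH2) (E : ℕ) (θ : ℝ) :
    Ok θ (fun L x => Some6 E θ L x) := Ok_Some6 hCH2 E θ (Ok_Some5 hCHN hEQ hSA hSB hAT E θ)

end Pool.Agent.Helper56.Q3
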