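import Pool.Agent.Helper54.Q.Stm

/-!
# The real inequality with the singles
-/

set_option autoImplicit false

namespace Pool.Agent.Helper56.Q3

open Finset Pool.Agent.Helper54.Q

/-- no distribution of masses makes all strategies fail; `σ l ≥ s l`: the masses of the singles with their exponents -/
def S_AR3 (η : ℝ) : Prop := ∀ (E : ℕ) (m : Fin 4 → Fin 4 → ℕ → ℕ → ℝ) (s σ : Fin 4 → ℝ) (t ρ : ℝ), 3 ≤ E →
  (∀ i j p q, 0 ≤ m i j p q) → (∀ i j p q, m i j p q = m j i q p) → (∀ i, 0 ≤ s i) → (∀ i, s i ≤ σ i) → 0 ≤ t →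
  t ≤ 1 / 100000 → ρ ≤ 1 + 1 / 100000 →
  ρ = (U E m 0 1 + U E m 0 2 + U E m 0 3 + U E m 1 2 + U E m 1 3 + U E m 2 3) + ∑ i, s i + t →
  (∑ i : Fin 4, ∑ j : Fin 4, (if i = j then 0 else
    ∑ p ∈ Icc 1 E, ∑ q ∈ Icc 1 E, ((p : ℝ) + q) * m i j p q)) + 2 * ∑ i, σ i ≤ 2 * (4 + 1 / 100000) →
  (∀ k l, k ≠ l → 5 / 6 - η < ρ - U E m k l - s l) →
  (∀ i j k l, Dist4 i j k l → 5 / 6 - η < ρ - U E m k l - ∑ p ∈ Icc 1 E, m i j p p) →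
  (∀ i j k l, Dist4 i j k l → ∀ e ∈ Icc 1 E, 5 / 6 - η < ρ - min
    (∑ q ∈ Icc 1 E, (m i k e q + m i l e q + m j k e q + m j l e q))
    (∑ p ∈ Icc 1 E, ∑ q ∈ Icc 1 E, ((min p q : ℕ) : ℝ) * m k l p q)) →
  (∀ l : Fin 4, ∀ e ∈ Icc 1 E, ∀ Sel : Finset (Fin 4 × ℕ), (∀ y ∈ Sel, y.1 ≠ l ∧ y.2 ∈ Icc 1 E) →
    5 / 6 - η < ρ - min (∑ y ∈ Sel, m y.1 l e y.2)
      ((∑ i ∈ univ.erase l, U E m i l) - ∑ y ∈ Sel, m y.1 l e y.2)) →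
  (∀ i j k l, Dist4 i j k l → ∀ e ∈ Icc 1 E, ∀ q ∈ Icc 1 E, ∀ q' ∈ Icc 1 E, e ≠ q → e ≠ q' →
    5 / 6 - η < ρ - m i l e q - m j l e q' +
      max 0 (max (m i l e q) (m j l e q') - U E m k l / 2)) →
  (∀ i j k l, Dist4 i j k l →
    5 / 6 - η < ρ - U E m k l - s k - s l + max 0 (σ k - U E m i l - U E m j l)) →
  False

end Pool.Agent.Helper56.Q3
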